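import Pool.Agent.Work.MP_52e894_pr.Final

set_option autoImplicit false

open MeasureTheory ProbabilityTheory Filter
open scoped NNReal Topology
open Span52e894

namespace Pool.Agent.Results.MP_52e894_pr.SpanScalingLimit

/-- **Scaling limit of the span set of simple random walk.** Let `B` be a standard Brownian motion
on any probability space and let `X 0, X 1, ...` be independent signs, with probability `1/2`
each, on any probability space. Then almost surely the span set of `B` on `[0,1]` is compact (so
that the closure taken in the definition of `pathSpan` does not change it), and, as `N → ∞`, the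
random compact sets of rescaled spans in `N` steps of the simple random walk
`k ↦ X 0 + ... + X (k-1)` converge in distribution, in the space of nonempty compact subsets
of `[0,1]` with the Hausdorff metric, to the span set of `B`. -/
theorem result {Ω Ω' : Type*} [MeasurableSpace Ω] [MeasurableSpace Ω']
    {P : Measure Ω} {P' : Measure Ω'} [IsProbabilityMeasure P] [IsProbabilityMeasure P']
    {B : ℝ≥0 → Ω → ℝ} (hB : IsBrownianReal B P)
    {X : ℕ → Ω' → ℤ} (hX : ∀ i, Measurable (X i)) (hind : iIndepFun X P')
    (h1 : ∀ i, P' {ω | X i ω = 1} = 1 / 2) (h2 : ∀ i, P' {ω | X i ω = -1} = 1 / 2) :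
    (∀ᵐ ω ∂P, (pathSpan (fun t => B t ω) : Set UI) = spanSet (fun t => B t ω)) ∧
    TendstoInDistribution (fun N ω => walkSpan N (fun k => ∑ i ∈ Finset.range k, X i ω)) atTop
      (fun ω => pathSpan (fun t => B t ω)) (fun _ => P') P :=
  ⟨hB.cont.mono (fun _ hω => coe_pathSpan_of_continuous hω), span_tendsto hB hX hind h1 h2⟩

end Pool.Agent.Results.MP_52e894_pr.SpanScalingLimit
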